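import Mathlib

/-!
# Quadratic residuosity of a Legendre-symbol determinant
-/

set_option autoImplicit false

namespace Pool.Agent.Results.MP_f57d9c_nt.TwiceDetResidue

open Finset Matrix

/-- The determinant `D_p(δ₁, δ₂)`; rows and columns are indexed by `0, 1, ..., (p - 1) / 2`. -/
noncomputable def D (p : ℕ) [Fact p.Prime] (δ₁ δ₂ : ℤ) : ℤ :=
  Matrix.det (Matrix.of fun j k : Fin ((p - 1) / 2 + 1) =>
    legendreSym p ((j : ℤ) + (k : ℤ)) + legendreSym p ((j : ℤ) - (k : ℤ)) +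
      δ₁ * legendreSym p ((j : ℤ) ^ 2 + δ₂ * (k : ℤ) ^ 2))

section field

variable {K : Type*} [Field K]

lemma sum_even (f : ℕ → K) (hodd : ∀ a, f (2 * a + 1) = 0) (h : ℕ) :
    ∑ m ∈ range (2 * h + 1), f m = ∑ a ∈ range (h + 1), f (2 * a) := by
  induction h with
  | zero => simp
  | succ h ih =>
    rw [show 2 * (h + 1) + 1 = 2 * h + 1 + 1 + 1 by ring, sum_range_succ, sum_range_succ, ih, hodd,
      sum_range_succ _ (h + 1)]
    rw [show 2 * (h + 1) = 2 * h + 1 + 1 by ring]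
    ring

lemma add_pow_even (x y : K) (h : ℕ) :
    (x + y) ^ (2 * h) + (x - y) ^ (2 * h) =
      ∑ a ∈ range (h + 1), 2 * ((2 * h).choose (2 * a) : K) * (x ^ 2) ^ a * (y ^ 2) ^ (h - a) := by
  have h1 : (x + y) ^ (2 * h) + (x - y) ^ (2 * h) =
      ∑ m ∈ range (2 * h + 1), (x ^ m * y ^ (2 * h - m) * ((2 * h).choose m : K) +
        x ^ m * (-y) ^ (2 * h - m) * ((2 * h).choose m : K)) := by
    rw [sum_add_distrib, ← add_pow, ← add_pow, ← sub_eq_add_neg]
  -- terms with index `> 2 h` are irrelevant: replace by a function on `ℕ`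
  have h2 : ∑ m ∈ range (2 * h + 1), (x ^ m * y ^ (2 * h - m) * ((2 * h).choose m : K) +
        x ^ m * (-y) ^ (2 * h - m) * ((2 * h).choose m : K)) =
      ∑ m ∈ range (2 * h + 1), (if Even m then 2 * ((2 * h).choose m : K) * x ^ m *
        y ^ (2 * h - m) else 0) := by
    refine sum_congr rfl fun m hm => ?_
    rw [mem_range] at hm
    split_ifs with he
    · have : Even (2 * h - m) := by
        rw [Nat.even_sub (by omega)]
        simp [he]
      rw [this.neg_pow]; ring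
    · have : Odd (2 * h - m) := by
        obtain ⟨t, ht⟩ := Nat.not_even_iff_odd.mp he
        exact ⟨h - t - 1, by omega⟩
      rw [this.neg_pow]; ring
  rw [h1, h2, sum_even]
  · refine sum_congr rfl fun a ha => ?_
    rw [mem_range] at ha
    rw [if_pos (even_two_mul a), ← pow_mul, ← pow_mul, show 2 * (h - a) = 2 * h - 2 * a by omega]
  · intro a
    rw [if_neg]
    rw [Nat.not_even_iff_odd]
    exact ⟨a, rfl⟩

/-- coefficients -/
def c (h : ℕ) (d₁ d₂ : K) (a b : ℕ) : K :=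
  (if a + b = h then 2 * ((2 * h).choose (2 * a) : K) else 0) +
    if a + b = 2 * h then d₁ * d₂ ^ b * ((2 * h).choose a : K) else 0

lemma sum_diag (F : ℕ → ℕ → K) (N s : ℕ) (hs : s ≤ N) :
    ∑ a ∈ range (N + 1), ∑ b ∈ range (N + 1), (if a + b = s then F a b else 0) =
      ∑ a ∈ range (s + 1), F a (s - a) := by
  have h1 : ∀ a ∈ range (N + 1), ∑ b ∈ range (N + 1), (if a + b = s then F a b else 0) =
      if a ∈ range (s + 1) then F a (s - a) else 0 := by
    intro a _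
    by_cases has : a ∈ range (s + 1)
    · rw [if_pos has]
      rw [mem_range] at has
      rw [sum_eq_single (s - a)]
      · rw [if_pos (by omega)]
      · intro b _ hb
        rw [if_neg (by omega)]
      · intro hb
        rw [mem_range] at hb
        omega
    · rw [if_neg has]
      rw [mem_range] at has
      refine sum_eq_zero fun b _ => ?_
      rw [if_neg (by omega)]
  rw [sum_congr rfl h1, ← sum_filter]
  congr 1
  ext a
  simp only [mem_filter, mem_range]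
  omega

lemma expand (h : ℕ) (d₁ d₂ x y : K) :
    (x + y) ^ (2 * h) + (x - y) ^ (2 * h) + d₁ * (x ^ 2 + d₂ * y ^ 2) ^ (2 * h) =
      ∑ a ∈ range (2 * h + 1), ∑ b ∈ range (2 * h + 1), (x ^ 2) ^ a * c h d₁ d₂ a b * (y ^ 2) ^ b := by
  have h1 : ∀ a b : ℕ, (x ^ 2) ^ a * c h d₁ d₂ a b * (y ^ 2) ^ b =
      (if a + b = h then 2 * ((2 * h).choose (2 * a) : K) * (x ^ 2) ^ a * (y ^ 2) ^ b else 0) +
      (if a + b = 2 * h then d₁ * ((x ^ 2) ^ a * (d₂ * y ^ 2) ^ b * ((2 * h).choose a : K)) else 0) := by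
    intro a b
    rw [c, mul_pow]
    split_ifs <;> ring
  simp only [h1, sum_add_distrib]
  rw [sum_diag (fun a b => 2 * ((2 * h).choose (2 * a) : K) * (x ^ 2) ^ a * (y ^ 2) ^ b) _ _ (by omega),
    sum_diag (fun a b => d₁ * ((x ^ 2) ^ a * (d₂ * y ^ 2) ^ b * ((2 * h).choose a : K))) _ _ le_rfl,
    add_pow_even, ← mul_sum, ← add_pow]

/-- The determinant of the coefficient matrix. -/
lemma det_c (h : ℕ) (hh : 0 < h) (d₁ d₂ : K) (hd₁ : d₁ = 1 ∨ d₁ = -1) (hd₂ : d₂ = 1 ∨ d₂ = -1) :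
    ∃ ε : K, (ε = 1 ∨ ε = -1) ∧
      Matrix.det (Matrix.of fun a b : Fin (2 * h + 1) => c h d₁ d₂ a b) =
        ε * ∏ a ∈ range (2 * h + 1), ((2 * h).choose a : K) := by
  set C := Matrix.of fun a b : Fin (2 * h + 1) => c h d₁ d₂ a b with hC
  have hperm := Matrix.det_permute' (Fin.revPerm : Equiv.Perm (Fin (2 * h + 1))) C
  have htri : (C.submatrix id (Fin.revPerm : Equiv.Perm (Fin (2 * h + 1)))).BlockTriangular id := by
    intro i j hij
    simp only [id] at hij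
    have hij' : (j : ℕ) < i := hij
    have h1 := i.2
    simp only [submatrix_apply, id, hC, of_apply, Fin.revPerm_apply, c, Fin.val_rev]
    rw [if_neg (by omega), if_neg (by omega), add_zero]
  have hdet : (C.submatrix id (Fin.revPerm : Equiv.Perm (Fin (2 * h + 1)))).det =
      ∏ i : Fin (2 * h + 1), d₁ * d₂ ^ (2 * h - (i : ℕ)) * ((2 * h).choose i : K) := by
    rw [Matrix.det_of_isUpperTriangular htri]
    refine prod_congr rfl fun i _ => ?_
    have h1 := i.2
    simp only [submatrix_apply, id, hC, of_apply, Fin.revPerm_apply, c, Fin.val_rev]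
    rw [if_neg (by omega), if_pos (by omega), zero_add]
    congr 3
    omega
  rw [hdet] at hperm
  have hpm : ∀ (d : K) (n : ℕ), (d = 1 ∨ d = -1) → (d ^ n = 1 ∨ d ^ n = -1) := by
    intro d n hd
    rcases hd with rfl | rfl
    · left; simp
    · exact neg_one_pow_eq_or K n
  have hmul : ∀ x y : K, (x = 1 ∨ x = -1) → (y = 1 ∨ y = -1) → (x * y = 1 ∨ x * y = -1) := by
    intro x y hx hy
    rcases hx with rfl | rfl <;> rcases hy with rfl | rfl <;> simp
  have hprod : ∃ ε : K, (ε = 1 ∨ ε = -1) ∧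
      ∏ i : Fin (2 * h + 1), d₁ * d₂ ^ (2 * h - (i : ℕ)) * ((2 * h).choose i : K) =
        ε * ∏ a ∈ range (2 * h + 1), ((2 * h).choose a : K) := by
    refine ⟨∏ i : Fin (2 * h + 1), d₁ * d₂ ^ (2 * h - (i : ℕ)), ?_, ?_⟩
    · apply Finset.prod_induction (fun i : Fin (2 * h + 1) => d₁ * d₂ ^ (2 * h - (i : ℕ)))
        (fun x : K => x = 1 ∨ x = -1) (fun x y hx hy => hmul x y hx hy) (Or.inl rfl)
      intro i _
      exact hmul _ _ hd₁ (hpm _ _ hd₂)
    · rw [prod_mul_distrib, ← Fin.prod_univ_eq_prod_range (fun a => ((2 * h).choose a : K))]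
  obtain ⟨ε, hε, hprod⟩ := hprod
  rw [hprod] at hperm
  rcases Int.units_eq_one_or (Equiv.Perm.sign (Fin.revPerm : Equiv.Perm (Fin (2 * h + 1)))) with
    hs | hs
  · rw [hs] at hperm
    refine ⟨ε, hε, ?_⟩
    rw [hperm]; simp
  · rw [hs] at hperm
    refine ⟨-ε, ?_, ?_⟩
    · rcases hε with rfl | rfl <;> simp
    · rw [neg_mul, hperm]; simp

lemma det_eq (h : ℕ) (hh : 0 < h) (d₁ d₂ : K) (hd₁ : d₁ = 1 ∨ d₁ = -1) (hd₂ : d₂ = 1 ∨ d₂ = -1)
    (v : Fin (2 * h + 1) → K) :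
    ∃ ε : K, (ε = 1 ∨ ε = -1) ∧
      Matrix.det (Matrix.of fun j k : Fin (2 * h + 1) =>
        (v j + v k) ^ (2 * h) + (v j - v k) ^ (2 * h) + d₁ * (v j ^ 2 + d₂ * v k ^ 2) ^ (2 * h)) =
        ε * (Matrix.vandermonde fun j => v j ^ 2).det ^ 2 *
          ∏ a ∈ range (2 * h + 1), ((2 * h).choose a : K) := by
  obtain ⟨ε, hε, hdet⟩ := det_c h hh d₁ d₂ hd₁ hd₂
  refine ⟨ε, hε, ?_⟩
  have hM : (Matrix.of fun j k : Fin (2 * h + 1) =>
        (v j + v k) ^ (2 * h) + (v j - v k) ^ (2 * h) + d₁ * (v j ^ 2 + d₂ * v k ^ 2) ^ (2 * h)) =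
      (Matrix.vandermonde fun j => v j ^ 2) *
        (Matrix.of fun a b : Fin (2 * h + 1) => c h d₁ d₂ a b) *
        (Matrix.vandermonde fun j => v j ^ 2).transpose := by
    ext j k
    simp only [Matrix.of_apply, Matrix.mul_apply, Matrix.vandermonde_apply, Matrix.transpose_apply]
    rw [expand, sum_comm]
    rw [← Fin.sum_univ_eq_sum_range (fun b => ∑ a ∈ range (2 * h + 1),
      (v j ^ 2) ^ a * c h d₁ d₂ a b * (v k ^ 2) ^ b)]
    refine sum_congr rfl fun b _ => ?_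
    rw [sum_mul, ← Fin.sum_univ_eq_sum_range (fun a =>
      (v j ^ 2) ^ a * c h d₁ d₂ a b * (v k ^ 2) ^ (b : ℕ))]
  rw [hM, Matrix.det_mul, Matrix.det_mul, Matrix.det_transpose, hdet]
  ring

end field

/-- For every prime `p ≡ 1 (mod 4)` and all signs `δ₁, δ₂`, the integer `2 D_p(δ₁, δ₂)` is a
quadratic residue modulo `p`. -/
theorem result (p : ℕ) [Fact p.Prime] (hp : p % 4 = 1) (δ₁ δ₂ : ℤ) (h₁ : δ₁ = 1 ∨ δ₁ = -1)
    (h₂ : δ₂ = 1 ∨ δ₂ = -1) :
    ¬ (p : ℤ) ∣ 2 * D p δ₁ δ₂ ∧ ∃ y : ℤ, 2 * D p δ₁ δ₂ ≡ y ^ 2 [ZMOD p] := by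
  have hpp : p.Prime := Fact.out
  have hp2 : 2 ≤ p := hpp.two_le
  obtain ⟨h, hh⟩ : ∃ h, p = 4 * h + 1 := ⟨p / 4, by omega⟩
  have hh0 : 0 < h := by omega
  have hn : (p - 1) / 2 = 2 * h := by omega
  have hn2 : p / 2 = 2 * h := by omega
  -- reduction modulo `p`
  have hcast : ((D p δ₁ δ₂ : ℤ) : ZMod p) = Matrix.det (Matrix.of fun j k : Fin (2 * h + 1) =>
        ((j : ℕ) + (k : ℕ) : ZMod p) ^ (2 * h) + ((j : ℕ) - (k : ℕ) : ZMod p) ^ (2 * h) +
          (δ₁ : ZMod p) * (((j : ℕ) : ZMod p) ^ 2 + (δ₂ : ZMod p) * ((k : ℕ) : ZMod p) ^ 2) ^ (2 * h)) := by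
    have e1 : ∀ m : ℕ, m = 2 * h → ((Matrix.det (Matrix.of fun j k : Fin (m + 1) =>
        legendreSym p ((j : ℤ) + (k : ℤ)) + legendreSym p ((j : ℤ) - (k : ℤ)) +
          δ₁ * legendreSym p ((j : ℤ) ^ 2 + δ₂ * (k : ℤ) ^ 2)) : ℤ) : ZMod p) =
        Matrix.det (Matrix.of fun j k : Fin (2 * h + 1) =>
        ((j : ℕ) + (k : ℕ) : ZMod p) ^ (2 * h) + ((j : ℕ) - (k : ℕ) : ZMod p) ^ (2 * h) +
          (δ₁ : ZMod p) * (((j : ℕ) : ZMod p) ^ 2 + (δ₂ : ZMod p) * ((k : ℕ) : ZMod p) ^ 2) ^ (2 * h)) := by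
      rintro m rfl
      refine ((Int.castRingHom (ZMod p)).map_det _).trans ?_
      congr 1
      ext j k
      simp only [RingHom.mapMatrix_apply, Matrix.map_apply, Matrix.of_apply, Int.coe_castRingHom]
      push_cast
      rw [legendreSym.eq_pow, legendreSym.eq_pow, legendreSym.eq_pow, hn2]
      push_cast
      rfl
    exact e1 _ hn
  obtain ⟨ε, hε, hdet⟩ := det_eq (K := ZMod p) h hh0 (δ₁ : ZMod p) (δ₂ : ZMod p)
    (by rcases h₁ with rfl | rfl <;> simp) (by rcases h₂ with rfl | rfl <;> simp)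
    (fun j : Fin (2 * h + 1) => ((j : ℕ) : ZMod p))
  rw [hdet] at hcast
  -- `i = (2h)!` is a square root of `-1`
  have hfac : ∀ m < p, ((m.factorial : ℕ) : ZMod p) ≠ 0 := by
    intro m hm h0
    rw [ZMod.natCast_eq_zero_iff, hpp.dvd_factorial] at h0
    omega
  have hi : (((2 * h).factorial : ℕ) : ZMod p) ^ 2 = -1 := by
    have hw := ZMod.wilsons_lemma p
    have e2 : p - 1 = 2 * h + 2 * h := by omega
    rw [e2] at hw
    have e3 : ∀ m ≤ 2 * h, (((2 * h + m).factorial : ℕ) : ZMod p) * (((2 * h - m).factorial : ℕ) : ZMod p) =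
        (-1) ^ m * (((2 * h).factorial : ℕ) : ZMod p) ^ 2 := by
      intro m
      induction m with
      | zero => intro _; simp; ring
      | succ m ih =>
        intro hm
        have ih' := ih (by omega)
        have e4 : 2 * h - m = (2 * h - (m + 1)) + 1 := by omega
        rw [e4, Nat.factorial_succ] at ih'
        rw [← Nat.add_assoc, Nat.factorial_succ]
        have e5 : ((2 * h + m + 1 : ℕ) : ZMod p) = -((2 * h - (m + 1) + 1 : ℕ) : ZMod p) := by
          rw [eq_neg_iff_add_eq_zero, ← Nat.cast_add, ZMod.natCast_eq_zero_iff]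
          exact ⟨1, by omega⟩
        push_cast at ih' e5 ⊢
        rw [e5, pow_succ]
        linear_combination (-1 : ZMod p) * ih'
    have e6 := e3 (2 * h) le_rfl
    rw [hw, Nat.sub_self, pow_mul] at e6
    simp at e6
    exact e6.symm
  set i := (((2 * h).factorial : ℕ) : ZMod p) with hidef
  set F := ∏ a ∈ range (2 * h + 1), ((a.factorial : ℕ) : ZMod p) with hF
  have hF0 : F ≠ 0 := by
    rw [hF, prod_ne_zero_iff]
    intro a ha
    rw [mem_range] at ha
    exact hfac a (by omega)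
  have hprod : (∏ a ∈ range (2 * h + 1), ((2 * h).choose a : ZMod p)) * F ^ 2 = i ^ (2 * h + 1) := by
    have e1 : F = ∏ a ∈ range (2 * h + 1), (((2 * h - a).factorial : ℕ) : ZMod p) := by
      rw [hF, ← prod_range_reflect]
      refine prod_congr rfl fun a ha => ?_
      rw [Nat.add_sub_cancel]
    rw [sq]
    nth_rw 2 [e1]
    rw [hF, ← mul_assoc, ← prod_mul_distrib, ← prod_mul_distrib]
    rw [prod_congr rfl (g := fun _ => i)]
    · simp
    · intro a ha
      rw [mem_range] at ha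
      rw [hidef, ← Nat.choose_mul_factorial_mul_factorial (n := 2 * h) (k := a) (by omega)]
      push_cast
      ring
  set V := (Matrix.vandermonde fun j : Fin (2 * h + 1) => (((j : ℕ) : ZMod p)) ^ 2).det with hV
  have hV0 : V ≠ 0 := by
    rw [hV, Matrix.det_vandermonde_ne_zero_iff]
    intro a b hab
    simp only at hab
    have hz : ((a : ℕ) : ZMod p) = ((b : ℕ) : ZMod p) ∨ ((a : ℕ) : ZMod p) = -((b : ℕ) : ZMod p) :=
      sq_eq_sq_iff_eq_or_eq_neg.mp hab
    have ha := a.2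
    have hb := b.2
    rcases hz with hz | hz
    · rw [ZMod.natCast_eq_natCast_iff', Nat.mod_eq_of_lt (by omega), Nat.mod_eq_of_lt (by omega)] at hz
      exact Fin.ext hz
    · rw [eq_neg_iff_add_eq_zero, ← Nat.cast_add, ZMod.natCast_eq_zero_iff] at hz
      have h0 : (a : ℕ) + b = 0 := by
        by_contra hne
        have := Nat.le_of_dvd (by omega) hz
        omega
      exact Fin.ext (by omega)
  have h1i : (1 + i) ^ 2 = 2 * i := by linear_combination hi
  have h1i0 : 1 + i ≠ 0 := by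
    intro h0
    rw [h0] at h1i
    have h3 : (2 : ZMod p) ≠ 0 := by
      intro h0
      have : ((2 : ℕ) : ZMod p) = 0 := by exact_mod_cast h0
      rw [ZMod.natCast_eq_zero_iff] at this
      have := Nat.le_of_dvd (by norm_num) this
      omega
    have h4 : i ≠ 0 := hfac _ (by omega)
    have h5 : (2 : ZMod p) * i = 0 := by rw [← h1i]; ring
    exact mul_ne_zero h3 h4 h5
  -- the square root
  have hεs : ∃ η : ZMod p, η ≠ 0 ∧ η ^ 2 = ε := by
    rcases hε with h0 | h0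
    · exact ⟨1, one_ne_zero, by rw [h0]; ring⟩
    · refine ⟨i, hfac _ (by omega), by rw [h0, hi]⟩
  obtain ⟨η, hη0, hη⟩ := hεs
  set w := η * V * i ^ h * F⁻¹ * (1 + i) with hw
  have hw0 : w ≠ 0 := by
    rw [hw]
    have h4 : i ≠ 0 := hfac _ (by omega)
    exact mul_ne_zero (mul_ne_zero (mul_ne_zero (mul_ne_zero hη0 hV0) (pow_ne_zero _ h4))
      (inv_ne_zero hF0)) h1i0
  have hfin : ((2 * D p δ₁ δ₂ : ℤ) : ZMod p) = w ^ 2 := by
    push_cast
    rw [hcast, hw]
    have e1 : (∏ a ∈ range (2 * h + 1), ((2 * h).choose a : ZMod p)) = i ^ (2 * h + 1) * (F⁻¹) ^ 2 := by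
      rw [← hprod]
      field_simp
    rw [e1, ← hη, mul_pow, h1i]
    ring
  constructor
  · intro hdvd
    have := (ZMod.intCast_zmod_eq_zero_iff_dvd (2 * D p δ₁ δ₂) p).mpr hdvd
    rw [hfin] at this
    exact hw0 (pow_eq_zero_iff (by norm_num) |>.mp this)
  · refine ⟨(w.val : ℤ), ?_⟩
    rw [← ZMod.intCast_eq_intCast_iff]
    rw [hfin]
    push_cast
    rw [ZMod.natCast_zmod_val]

end Pool.Agent.Results.MP_f57d9c_nt.TwiceDetResidue
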